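import Pool.Agent.H34.VM.G2
import Pool.Agent.H34.VM.G3
import Pool.Agent.H34.VM.SG
import Pool.Agent.H34.VM.T0
import Pool.Agent.H34.VM.T
import Pool.Agent.H34.VM.V2
import Pool.Agent.H34.VM.E
import Pool.Agent.H66.VM.C
import Pool.Agent.H66.VM.I
import Pool.Agent.H66.VM.T1
import Pool.Agent.H27.VM.U
import Pool.Agent.H27.VM.E3
import Pool.Agent.H27.VM.E4
import Pool.Agent.H59.VM.E12
import Pool.Agent.H59.VM.E5

/-!
# Only finitely many finite groups `G` outside the two known classes have `v(G) = 2 |G|`

Authors: helper34, with helper27, helper59, helper66.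

`v(G)` is the least number of vertices of a graph whose automorphism group is isomorphic to `G`.
Every finite group with more than `2 ^ 61` elements which is neither of prime order nor a generalized
quaternion group is represented by a graph with fewer than `2 |G|` vertices.  Hence question Q1 has a
negative answer: up to isomorphism, only finitely many groups `G` with `v(G) = 2 |G|` are neither
cyclic of prime order nor generalized quaternion.  No classification and no theorem on graphical
regular representations is used; the proof is elementary and the same for all groups.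

Sketch.  Let `L` be a subgroup of prime order `q`, `q ^ 2 ≤ n = |G|`.  Vertices: the elements of `G`
and the cosets `G ⧸ L`, `n + n / q < 2 n` in all.  The cosets form a clique; `g` is adjacent to
`g u` and `g u⁻¹` for `u` in a small generating set `S`, and to the cosets `g t`, `t` in a small set
`T` of cosets.  `S` consists of `O(log n)` elements, chosen one after the other, so that all the
coincidences which can be avoided are avoided.  `T` contains `L` and `u⁻¹ L` for `u ∈ S`, and
`ℓ(u)` further generic pairs `{c, u⁻¹ c}` for each `u`.  The numbers of common neighbours of `1` and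
`u` in `G ⧸ L` are then distinct labels, so an automorphism which fixes `1` maps `u` to `u` or `u⁻¹`;
the coset `L` is the only one in `T` with many neighbours in `S ∪ S⁻¹`, and it is adjacent to all `u`
but to `u⁻¹` only if `u ^ 2 ∈ L`.  So all is fixed if `G` is generated by elements `u` with `u ^ 2 = 1`
or `u ^ 2 ∉ L`.  If there is no such `L`, then `G` has a unique involution `z` and an abelian subgroup
`K` of index two, all elements outside of which have the square `z`; then either `G` is generalized
quaternion, or there is a subgroup `M` of odd prime order, and the action on `G ⧸ M` (a third set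
of vertices, `L = {1, z}`) distinguishes `u` and `u⁻¹` for one generator outside `K`.
-/

set_option autoImplicit false

namespace Pool.Agent.Results.MP_d3cc9f_co.FinitelyManyGroups

/-- The least number of vertices of a simple graph whose automorphism group is isomorphic to `G`. -/
noncomputable def v (G : Type) [Group G] : ℕ :=
  sInf {N : ℕ | ∃ X : SimpleGraph (Fin N), Nonempty ((X ≃g X) ≃* G)}

/-- `G` is a generalized quaternion group `Q_(2^k)`, `k ≥ 3`.  (`QuaternionGroup m` is the group of
order `4 m` with the elements `a i`, `xa i`, `i : ZMod (2 * m)`, generated by `a 1` of order `2 m` and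
`x = xa 0` with `x ^ 2 = a m` and `x⁻¹ * a 1 * x = a (-1)`.) -/
def IsGeneralizedQuaternion (G : Type) [Group G] : Prop :=
  ∃ k : ℕ, 3 ≤ k ∧ Nonempty (G ≃* QuaternionGroup (2 ^ (k - 2)))

open H34.VM (t_T t_star t_sigma t_groups t_graph2 t_graph3 t_rigid one_explicit two_explicit
  t_U t_E3 t_E4 t_C1 t_C2 t_C3 t_I t_T1)
open H59.VM (t_E1 t_E2 t_E5)

/-- The main theorem with an explicit bound. -/
theorem main (G : Type) [Group G] [Finite G] (hn : 2 ^ 61 < Nat.card G)
    (hp : ¬ (Nat.card G).Prime) (hq : ¬ IsGeneralizedQuaternion G) :
    ∃ N < 2 * Nat.card G, ∃ X : SimpleGraph (Fin N), Nonempty ((X ≃g X) ≃* G) := by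
  have hU := t_U
  have hT := t_T t_star (t_T1 t_C3)
  have hSG := t_sigma (t_I t_C1 t_C2)
  have hE := t_groups t_E1 (t_E2 hU) t_E3 (t_E4 hU) t_E5
  rcases hE G (by omega) hp hq with h | h
  · exact one_explicit (t_graph2 t_rigid) hSG hT G hn h
  · exact two_explicit (t_graph3 t_rigid) hSG hT G hn h

theorem finite_groups (n : ℕ) : Finite (Group (Fin n)) := by
  apply Finite.of_injective (fun (g : Group (Fin n)) => (g.mul : Fin n → Fin n → Fin n))
  intro g h hgh
  exact Group.ext (by
    funext a b
    exact congrFun (congrFun hgh a) b)

/-- (1) Every finite group with more than `2 ^ 61` elements, neither of prime order nor generalized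
quaternion, is represented by a graph with fewer than `2 |G|` vertices; so `v(G) < 2 |G|`.
(2) There are only finitely many group structures on the sets `Fin n`, for all `n` together, with
`v = 2 n` which are neither of prime order nor generalized quaternion. -/
theorem result :
    (∀ (G : Type) [Group G] [Finite G], 2 ^ 61 < Nat.card G → ¬ (Nat.card G).Prime →
      ¬ IsGeneralizedQuaternion G →
        (∃ N < 2 * Nat.card G, ∃ X : SimpleGraph (Fin N), Nonempty ((X ≃g X) ≃* G)) ∧
          v G < 2 * Nat.card G) ∧
    {x : Σ n : ℕ, Group (Fin n) | @v (Fin x.1) x.2 = 2 * x.1 ∧ ¬ x.1.Prime ∧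
      ¬ @IsGeneralizedQuaternion (Fin x.1) x.2}.Finite := by
  have key : ∀ (G : Type) [Group G] [Finite G], 2 ^ 61 < Nat.card G → ¬ (Nat.card G).Prime →
      ¬ IsGeneralizedQuaternion G →
        (∃ N < 2 * Nat.card G, ∃ X : SimpleGraph (Fin N), Nonempty ((X ≃g X) ≃* G)) ∧
          v G < 2 * Nat.card G := by
    intro G _ _ hn hp hq
    have h := main G hn hp hq
    refine ⟨h, ?_⟩
    obtain ⟨N, hN, hX⟩ := h
    exact lt_of_le_of_lt (Nat.sInf_le hX) hN
  refine ⟨key, ?_⟩
  have hfin : (⋃ n ∈ Finset.range (2 ^ 61 + 1),
      (fun g : Group (Fin n) => (⟨n, g⟩ : Σ n : ℕ, Group (Fin n))) '' Set.univ).Finite := by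
    apply Set.Finite.biUnion (Finset.finite_toSet _)
    intro n _
    haveI := finite_groups n
    exact (Set.toFinite _).image _
  refine hfin.subset ?_
  rintro ⟨n, g⟩ ⟨h1, h2, h3⟩
  rw [Set.mem_iUnion₂]
  refine ⟨n, ?_, g, trivial, rfl⟩
  rw [Finset.mem_range]
  by_contra hn
  letI := g
  have hc : Nat.card (Fin n) = n := Nat.card_fin n
  have h4 := (key (Fin n) (by rw [hc]; omega) (by rw [hc]; exact h2) h3).2
  rw [hc] at h4
  have h5 : v (Fin n) = 2 * n := h1
  omega

end Pool.Agent.Results.MP_d3cc9f_co.FinitelyManyGroups
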